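import Pool.Agent.Helper43.GD.St

/-! Project GD (MP_b3ce06_al), module P2. -/

set_option autoImplicit false

namespace Pool.Agent.Helper81.GD

open Pool.Agent.Helper43.GD

theorem p2_key {L A : Type} [CommRing L] [Group A] (Q : Fr L A) {σ : Lˣ} (hσ : σ ∈ Q.U)
    (a b c d : L) (h : Q.E a * Q.F b * (Q.h σ * Q.h σ) = Q.F c * Q.E d) :
    Q.E c * Q.F d * (Q.h σ * Q.h σ) = Q.F a * Q.E b := by
  have kE : ∀ x, Q.h (-1) * Q.w * Q.E x * (Q.h (-1) * Q.w)⁻¹ = Q.F x := by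
    intro x
    calc Q.h (-1) * Q.w * Q.E x * (Q.h (-1) * Q.w)⁻¹
        = Q.h (-1) * (Q.w * Q.E x * Q.w⁻¹) * (Q.h (-1))⁻¹ := by group
      _ = _ := by rw [Q.w_E, Q.neg_F, neg_neg]
  have kF : ∀ x, Q.h (-1) * Q.w * Q.F x * (Q.h (-1) * Q.w)⁻¹ = Q.E x := by
    intro x
    calc Q.h (-1) * Q.w * Q.F x * (Q.h (-1) * Q.w)⁻¹
        = Q.h (-1) * (Q.w * Q.F x * Q.w⁻¹) * (Q.h (-1))⁻¹ := by group
      _ = _ := by rw [Q.w_F, Q.neg_E, neg_neg]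
  have kh : Q.h (-1) * Q.w * Q.h σ * (Q.h (-1) * Q.w)⁻¹ = (Q.h σ)⁻¹ := by
    have hc : Q.h (-1) * (Q.h σ)⁻¹ = (Q.h σ)⁻¹ * Q.h (-1) := by
      rw [← Q.h_inv hσ, Q.h_comm Q.neg (Q.U.inv_mem hσ)]
    calc Q.h (-1) * Q.w * Q.h σ * (Q.h (-1) * Q.w)⁻¹
        = Q.h (-1) * (Q.w * Q.h σ * Q.w⁻¹) * (Q.h (-1))⁻¹ := by group
      _ = _ := by rw [Q.w_h hσ, hc]; group
  have h1 : (Q.h (-1) * Q.w * Q.E a * (Q.h (-1) * Q.w)⁻¹) *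
      (Q.h (-1) * Q.w * Q.F b * (Q.h (-1) * Q.w)⁻¹) *
      ((Q.h (-1) * Q.w * Q.h σ * (Q.h (-1) * Q.w)⁻¹) *
        (Q.h (-1) * Q.w * Q.h σ * (Q.h (-1) * Q.w)⁻¹)) =
      (Q.h (-1) * Q.w * Q.F c * (Q.h (-1) * Q.w)⁻¹) *
      (Q.h (-1) * Q.w * Q.E d * (Q.h (-1) * Q.w)⁻¹) := by
    calc _ = (Q.h (-1) * Q.w) * (Q.E a * Q.F b * (Q.h σ * Q.h σ)) * (Q.h (-1) * Q.w)⁻¹ := by group
      _ = (Q.h (-1) * Q.w) * (Q.F c * Q.E d) * (Q.h (-1) * Q.w)⁻¹ := by rw [h]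
      _ = _ := by group
  rw [kE, kF, kh, kF, kE] at h1
  rw [← h1]
  group

theorem hP2 : StST → StP2 := by
  intro hST L A _ _ Q u σ v hσ hv
  have hu := u.mul_inv
  have hvv := v.mul_inv
  have e1 : (1 - (σ : L)) * (v : L) = ((u⁻¹ : Lˣ) : L) := by
    linear_combination ((u⁻¹ : Lˣ) : L) * hv - ((1 - (σ : L)) * v) * hu
  have e2 : ((v⁻¹ : Lˣ) : L) = (1 - (σ : L)) * u := by
    linear_combination (-((v⁻¹ : Lˣ) : L)) * hv + ((1 - (σ : L)) * u) * hvv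
  rw [hST L A Q u σ hσ, hST L A Q v σ hσ, e1, e2]
  have c1 : ((σ⁻¹ : Lˣ) : L) * ((1 - (σ : L)) * u) = (1 - (σ : L)) * u * ((σ⁻¹ : Lˣ) : L) :=
    mul_comm _ _
  have c2 : ((u⁻¹ : Lˣ) : L) * ((σ⁻¹ : Lˣ) : L) = ((σ⁻¹ : Lˣ) : L) * ((u⁻¹ : Lˣ) : L) :=
    mul_comm _ _
  rw [c1, c2]
  exact ⟨p2_key Q hσ _ _ _ _, p2_key Q hσ _ _ _ _⟩

end Pool.Agent.Helper81.GD
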